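import Mathlib

set_option autoImplicit false

open MeasureTheory Set Filter Topology

namespace Pool.Agent.H.MP_484e46_gt

noncomputable def U : Measure ℝ := volume.restrict (Ioo (-1) 1)

instance : IsFiniteMeasure U := by
  unfold U
  infer_instance

lemma U_univ : U.real univ = 2 := by
  simp [U, Measure.real]; norm_num

noncomputable def Pm (m : ℕ) : Measure (Fin m → ℝ) := Measure.pi fun _ : Fin m => U

instance (m : ℕ) : IsFiniteMeasure (Pm m) := by unfold Pm; infer_instance

lemma Pm_eq (m : ℕ) : Pm m = volume.restrict (univ.pi fun _ => Ioo (-1 : ℝ) 1) := by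
  unfold Pm U
  rw [volume_pi, Measure.restrict_pi_pi]

noncomputable def N {m : ℕ} (b : Fin m → ℝ) : Measure ℝ :=
  (Pm m).map (fun y => ∑ j, b j * y j)

lemma meas_lin {m : ℕ} (b : Fin m → ℝ) : Measurable (fun y : Fin m → ℝ => ∑ j, b j * y j) := by
  fun_prop

instance {m : ℕ} (b : Fin m → ℝ) : IsFiniteMeasure (N b) := by unfold N; infer_instance

/-- delete coordinate k -/
def del {m : ℕ} (b : Fin (m+1) → ℝ) (k : Fin (m+1)) : Fin m → ℝ := fun j => b (k.succAbove j)

lemma joint {m : ℕ} (b : Fin (m+1) → ℝ) (k : Fin (m+1)) :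
    (Pm (m+1)).map (fun y => (y k, ∑ j, b j * y j)) =
      (U.prod (N (del b k))).map (fun p => (p.1, b k * p.1 + p.2)) := by
  have h := (measurePreserving_piFinSuccAbove (fun _ : Fin (m+1) => U) k).map_eq
  have h2 : U.prod (N (del b k)) =
      (U.prod (Pm m)).map (Prod.map id (fun y => ∑ j, del b k j * y j)) := by
    rw [← Measure.map_prod_map _ _ measurable_id (meas_lin _), Measure.map_id]; rfl
  rw [h2, Measure.map_map (by fun_prop) (measurable_id.prodMap (meas_lin _))]
  unfold Pm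
  rw [← h, Measure.map_map (Measurable.comp (by fun_prop) (measurable_id.prodMap (meas_lin _)))
    (MeasurableEquiv.measurable _)]
  congr 1
  funext y
  simp only [Function.comp, Fin.sum_univ_succAbove _ k]
  rfl

lemma N_succ {m : ℕ} (b : Fin (m+1) → ℝ) (k : Fin (m+1)) :
    N b = (U.prod (N (del b k))).map (fun p => b k * p.1 + p.2) := by
  have h := congrArg (Measure.map Prod.snd) (joint b k)
  rw [Measure.map_map measurable_snd (by fun_prop), Measure.map_map measurable_snd (by fun_prop)] at h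
  exact h

lemma N_zero (b : Fin 0 → ℝ) : N b = Measure.dirac 0 := by
  unfold N Pm
  simp

lemma N_univ {m : ℕ} (b : Fin m → ℝ) : (N b).real univ = 2 ^ m := by
  unfold N Pm
  rw [Measure.real, Measure.map_apply (meas_lin b) MeasurableSet.univ, preimage_univ,
    Measure.pi_univ]
  have := U_univ
  simp only [Measure.real] at this
  simp [ENNReal.toReal_pow, this]

lemma N_supp {m : ℕ} (b : Fin m → ℝ) : ∀ᵐ z ∂N b, |z| ≤ ∑ j, |b j| := by
  unfold N
  rw [ae_map_iff (meas_lin b).aemeasurable (measurableSet_le (by fun_prop) (by fun_prop)), Pm_eq]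
  filter_upwards [ae_restrict_mem (MeasurableSet.univ_pi fun _ => measurableSet_Ioo)] with y hy
  refine (Finset.abs_sum_le_sum_abs _ _).trans (Finset.sum_le_sum fun j _ => ?_)
  rw [abs_mul]
  have := hy j (mem_univ _)
  have h1 : |y j| ≤ 1 := abs_le.2 ⟨this.1.le, this.2.le⟩
  nlinarith [abs_nonneg (b j)]

lemma N_int {m : ℕ} (b : Fin (m+1) → ℝ) (k : Fin (m+1)) (φ : ℝ → ℝ) (hφ : Integrable φ (N b)) :
    ∫ z, φ z ∂N b = ∫ v, ∫ y, φ (b k * v + y) ∂N (del b k) ∂U := by
  rw [N_succ b k] at hφ ⊢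
  rw [integral_map (by fun_prop) hφ.aestronglyMeasurable, integral_prod]
  exact (integrable_map_measure hφ.aestronglyMeasurable (by fun_prop)).1 hφ

lemma int_cont {m : ℕ} (b : Fin m → ℝ) (φ : ℝ → ℝ) (hφ : Continuous φ) : Integrable φ (N b) := by
  obtain ⟨C, hC⟩ := (isCompact_Icc (a := -∑ j, |b j|) (b := ∑ j, |b j|)).exists_bound_of_continuousOn
    hφ.continuousOn
  refine Integrable.of_bound hφ.aestronglyMeasurable C ?_
  filter_upwards [N_supp b] with z hz
  exact hC z (abs_le.1 hz)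

lemma U_int (φ : ℝ → ℝ) : ∫ v, φ v ∂U = ∫ v in (-1 : ℝ)..1, φ v := by
  rw [intervalIntegral.integral_of_le (by norm_num), integral_Ioc_eq_integral_Ioo]; rfl

lemma N_mom : ∀ {m : ℕ} (b : Fin m → ℝ) (t : ℝ),
    ∫ z, (t + z) ^ 2 ∂N b = 2 ^ m * (t ^ 2 + (∑ j, b j ^ 2) / 3)
  | 0, b, t => by simp [N_zero]
  | m+1, b, t => by
    rw [N_int b 0 _ (int_cont b _ (by fun_prop))]
    have : ∀ v, ∫ y, (t + (b 0 * v + y)) ^ 2 ∂N (del b 0) =
        2 ^ m * (t ^ 2 + (∑ j, del b 0 j ^ 2) / 3) + 2 ^ m * (2 * t * b 0) * v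
          + 2 ^ m * b 0 ^ 2 * v ^ 2 := by
      intro v
      simp_rw [← add_assoc]
      rw [N_mom]; ring
    simp_rw [this]
    rw [U_int, intervalIntegral.integral_add (by apply Continuous.intervalIntegrable; fun_prop)
      (by apply Continuous.intervalIntegrable; fun_prop),
      intervalIntegral.integral_add (by apply Continuous.intervalIntegrable; fun_prop)
      (by apply Continuous.intervalIntegrable; fun_prop),
      intervalIntegral.integral_const_mul, intervalIntegral.integral_const_mul,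
      intervalIntegral.integral_const_mul, integral_id, integral_pow]
    simp [Fin.sum_univ_succ, del]
    ring

/-- symmetric decreasing -/
def Uni (φ : ℝ → ℝ) : Prop := ∀ x y, |x| ≤ |y| → φ y ≤ φ x

lemma Uni.neg {φ : ℝ → ℝ} (h : Uni φ) (x : ℝ) : φ (-x) = φ x :=
  le_antisymm (h _ _ (by simp)) (h _ _ (by simp))

lemma Uni.abs {φ : ℝ → ℝ} (h : Uni φ) (x : ℝ) : φ |x| = φ x :=
  le_antisymm (h _ _ (by simp)) (h _ _ (by simp))

lemma Uni.meas {φ : ℝ → ℝ} (h : Uni φ) : Measurable φ := by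
  have h1 : Antitone (fun r => φ (max r 0)) := by
    intro r s hrs
    apply h
    rw [abs_of_nonneg (le_max_right _ _), abs_of_nonneg (le_max_right _ _)]
    exact max_le_max hrs le_rfl
  have h2 : φ = (fun r => φ (max r 0)) ∘ (fun x => |x|) := by
    funext x
    simp [h.abs]
  rw [h2]
  exact h1.measurable.comp (by fun_prop)

lemma bdd_ii {φ : ℝ → ℝ} (hm : Measurable φ) {C : ℝ} (hb : ∀ x, |φ x| ≤ C) (s t : ℝ) :
    IntervalIntegrable φ volume s t := by
  rw [intervalIntegrable_iff]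
  have : IsFiniteMeasure (volume.restrict (uIoc s t)) := by
    unfold uIoc; infer_instance
  exact Integrable.of_bound hm.aestronglyMeasurable C (ae_of_all _ hb)

lemma win {φ : ℝ → ℝ} (h : Uni φ) {C : ℝ} (hb : ∀ x, |φ x| ≤ C) {c : ℝ} (hc : 0 ≤ c) :
    Uni (fun t => ∫ x in (t - c)..(t + c), φ x) := by
  have ii := bdd_ii h.meas hb
  have ev : ∀ t, ∫ x in (-t - c)..(-t + c), φ x = ∫ x in (t - c)..(t + c), φ x := by
    intro t
    have := intervalIntegral.integral_comp_neg (a := t - c) (b := t + c) φ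
    simp_rw [h.neg] at this
    rw [this]; congr 1 <;> ring
  have ab : ∀ t, ∫ x in (|t| - c)..(|t| + c), φ x = ∫ x in (t - c)..(t + c), φ x := by
    intro t
    rcases abs_choice t with h1 | h1 <;> rw [h1]
    exact ev t
  intro x y hxy
  dsimp only
  rw [← ab x, ← ab y]
  have hx := abs_nonneg x
  generalize |x| = s at *
  generalize |y| = t at *
  have e1 := intervalIntegral.integral_add_adjacent_intervals (ii (s - c) (s + c)) (ii (s + c) (t + c))
  have e2 := intervalIntegral.integral_add_adjacent_intervals (ii (s - c) (t - c)) (ii (t - c) (t + c))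
  have e3 := intervalIntegral.integral_comp_add_right (a := s) (b := t) φ c
  have e4 := intervalIntegral.integral_comp_sub_right (a := s) (b := t) φ c
  have e5 : ∫ x in s..t, φ (x + c) ≤ ∫ x in s..t, φ (x - c) := by
    apply intervalIntegral.integral_mono_on hxy
    · exact bdd_ii (h.meas.comp (by fun_prop)) (fun x => hb _) _ _
    · exact bdd_ii (h.meas.comp (by fun_prop)) (fun x => hb _) _ _
    · intro x hx'
      apply h
      have : 0 ≤ x := hx.trans hx'.1
      rw [abs_of_nonneg (by linarith : 0 ≤ x + c), abs_le]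
      constructor <;> linarith
  linarith

lemma U_win (φ : ℝ → ℝ) {c : ℝ} (hc : c ≠ 0) (t : ℝ) :
    ∫ v, φ (c * v + t) ∂U = |c|⁻¹ * ∫ x in (t - |c|)..(t + |c|), φ x := by
  rw [U_int, intervalIntegral.integral_comp_mul_add _ hc]
  rcases lt_or_gt_of_ne hc with h | h
  · rw [abs_of_neg h, intervalIntegral.integral_symm]
    simp only [smul_eq_mul, inv_neg, mul_neg, neg_mul]
    congr 2 <;> ring_nf
  · rw [abs_of_pos h]
    simp only [smul_eq_mul]
    congr 2 <;> ring

lemma step {φ : ℝ → ℝ} (h : Uni φ) {C : ℝ} (hb : ∀ x, |φ x| ≤ C) (c : ℝ) :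
    Uni (fun t => ∫ v, φ (c * v + t) ∂U) := by
  by_cases hc : c = 0
  · intro x y hxy
    simp only [hc, zero_mul, zero_add, integral_const, U_univ, smul_eq_mul]
    linarith [h x y hxy]
  · intro x y hxy
    simp only [U_win φ hc]
    exact mul_le_mul_of_nonneg_left (win h hb (abs_nonneg c) x y hxy) (by positivity)

noncomputable def E {m : ℕ} (b : Fin m → ℝ) (φ : ℝ → ℝ) (t : ℝ) : ℝ := ∫ y, φ (y + t) ∂N b

lemma E_bdd {m : ℕ} (b : Fin m → ℝ) {φ : ℝ → ℝ} {C : ℝ} (hb : ∀ x, |φ x| ≤ C) (t : ℝ) :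
    |E b φ t| ≤ C * 2 ^ m := by
  rw [← N_univ b]
  exact norm_integral_le_of_norm_le_const (f := fun y => φ (y + t)) (ae_of_all _ fun y => hb _)

lemma E_succ {m : ℕ} (b : Fin (m+1) → ℝ) (k : Fin (m+1)) {φ : ℝ → ℝ} (hm : Measurable φ) {C : ℝ}
    (hb : ∀ x, |φ x| ≤ C) (t : ℝ) :
    E b φ t = ∫ v, E (del b k) φ (b k * v + t) ∂U := by
  unfold E
  rw [N_int b k (fun y => φ (y + t))
    (Integrable.of_bound (hm.comp (by fun_prop)).aestronglyMeasurable C (ae_of_all _ fun y => hb _))]
  congr 1; funext v; congr 1; funext y; congr 1; ring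

lemma E_uni : ∀ {m : ℕ} (b : Fin m → ℝ) {φ : ℝ → ℝ} (_ : Uni φ) {C : ℝ}
    (_ : ∀ x, |φ x| ≤ C), Uni (E b φ)
  | 0, b, φ, h, C, hb => by
    intro x y hxy
    simp [E, N_zero, h x y hxy]
  | m+1, b, φ, h, C, hb => by
    have : E b φ = fun t => ∫ v, E (del b 0) φ (b 0 * v + t) ∂U := by
      funext t; exact E_succ b 0 h.meas hb t
    rw [this]
    exact step (E_uni _ h hb) (E_bdd _ hb) _

end Pool.Agent.H.MP_484e46_gt
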