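import Pool.Agent.H.MP_484e46_gt.A

set_option autoImplicit false

open MeasureTheory Set Filter Topology

namespace Pool.Agent.H.MP_484e46_gt

noncomputable def ch (h : ℝ) : ℝ → ℝ := fun x => if |x| ≤ h then 1 else 0
noncomputable def op (h : ℝ) : ℝ → ℝ := fun x => if |x| < h then 1 else 0

lemma ch_uni (h : ℝ) : Uni (ch h) := by
  intro x y hxy; unfold ch; split_ifs <;> first | (norm_num; done) | (exfalso; linarith)
lemma op_uni (h : ℝ) : Uni (op h) := by
  intro x y hxy; unfold op; split_ifs <;> first | (norm_num; done) | (exfalso; linarith)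
lemma ch_bd (h x : ℝ) : |ch h x| ≤ 1 := by unfold ch; split_ifs <;> simp
lemma op_bd (h x : ℝ) : |op h x| ≤ 1 := by unfold op; split_ifs <;> simp
lemma ch_nn (h x : ℝ) : 0 ≤ ch h x := by unfold ch; split_ifs <;> simp
lemma op_nn (h x : ℝ) : 0 ≤ op h x := by unfold op; split_ifs <;> simp

lemma E_nn {m : ℕ} (b : Fin m → ℝ) {φ : ℝ → ℝ} (h : ∀ x, 0 ≤ φ x) (t : ℝ) : 0 ≤ E b φ t :=
  integral_nonneg fun _ => h _

lemma E_ch {m : ℕ} (b : Fin m → ℝ) (h t : ℝ) : E b (ch h) t = (N b).real {y | |y + t| ≤ h} := by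
  rw [← integral_indicator_one (measurableSet_le (by fun_prop) (by fun_prop))]
  unfold E ch; congr 1

lemma E_op {m : ℕ} (b : Fin m → ℝ) (h t : ℝ) : E b (op h) t = (N b).real {y | |y + t| < h} := by
  rw [← integral_indicator_one (measurableSet_lt (by fun_prop) (by fun_prop))]
  unfold E op; congr 1

noncomputable def F {m : ℕ} (b : Fin (m+1) → ℝ) (k : Fin (m+1)) (x : ℝ) : ℝ :=
  |b k|⁻¹ * E (del b k) (op |b k|) x

lemma F_uni {m : ℕ} (b : Fin (m+1) → ℝ) (k : Fin (m+1)) : Uni (F b k) := fun x y h =>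
  mul_le_mul_of_nonneg_left (E_uni _ (op_uni _) (op_bd _) x y h) (by positivity)

lemma F_nn {m : ℕ} (b : Fin (m+1) → ℝ) (k : Fin (m+1)) (x : ℝ) : 0 ≤ F b k x :=
  mul_nonneg (by positivity) (E_nn _ (op_nn _) _)

lemma dens {m : ℕ} (b : Fin (m+1) → ℝ) (k : Fin (m+1)) (hk : b k ≠ 0) {h : ℝ → ℝ}
    (hm : Measurable h) {C : ℝ} (hb : ∀ x, |h x| ≤ C) (hi : Integrable h) :
    ∫ z, h z ∂N b = ∫ x, h x * F b k x := by
  have hN : Integrable h (N b) := Integrable.of_bound hm.aestronglyMeasurable C (ae_of_all _ hb)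
  rw [N_succ b k] at hN ⊢
  rw [integral_map (by fun_prop) hN.aestronglyMeasurable,
    integral_prod_symm (f := fun p : ℝ × ℝ => h (b k * p.1 + p.2))
      ((integrable_map_measure hN.aestronglyMeasurable (by fun_prop)).1 hN)]
  have hc : 0 < |b k| := abs_pos.2 hk
  have e : ∀ y, ∫ v, h (b k * v + y) ∂U = ∫ x, h x * (|b k|⁻¹ * op |b k| (y + -x)) := by
    intro y
    rw [U_win h hk, intervalIntegral.integral_of_le (by linarith), integral_Ioc_eq_integral_Ioo,
      ← integral_indicator measurableSet_Ioo, ← integral_const_mul]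
    congr 1; funext x
    by_cases hx : x ∈ Ioo (y - |b k|) (y + |b k|)
    · have : |y + -x| < |b k| := abs_lt.2 ⟨by linarith [hx.2], by linarith [hx.1]⟩
      simp [op, this, hx, mul_comm]
    · have : ¬ |y + -x| < |b k| := fun h' => hx ⟨by linarith [(abs_lt.1 h').2], by linarith [(abs_lt.1 h').1]⟩
      simp [op, this, hx]
  simp_rw [e]
  rw [integral_integral_swap]
  · congr 1; funext x
    rw [integral_const_mul, integral_const_mul, F, ← (E_uni _ (op_uni _) (op_bd _)).neg x]
    rfl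
  · have h1 : Integrable (fun p : ℝ × ℝ => |b k|⁻¹ * h p.2) ((N (del b k)).prod volume) :=
      Integrable.mul_prod (integrable_const _) hi
    refine h1.mono ?_ (ae_of_all _ fun p => ?_)
    · have := (op_uni |b k|).meas
      exact Measurable.aestronglyMeasurable (by unfold Function.uncurry; fun_prop)
    · simp only [Function.uncurry, norm_mul, Real.norm_eq_abs]
      have := op_bd |b k| (p.1 + -p.2)
      have h2 := abs_nonneg (h p.2)
      have h3 := abs_nonneg (|b k|⁻¹)
      nlinarith [mul_nonneg h2 h3]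

lemma cmp {m : ℕ} (b : Fin (m+1) → ℝ) (k : Fin (m+1)) (hk : b k ≠ 0) {a : ℝ} (ha : 0 ≤ a)
    {h : ℝ → ℝ} (hm : Measurable h) {C : ℝ} (hb : ∀ x, |h x| ≤ C) (hi : Integrable h)
    (h1 : ∀ x, |x| ≤ a → 0 ≤ h x) (h2 : ∀ x, a < |x| → h x ≤ 0) :
    F b k a * ∫ x, h x ≤ ∫ z, h z ∂N b := by
  rw [dens b k hk hm hb hi, ← integral_const_mul]
  refine integral_mono (hi.const_mul _) ?_ fun x => ?_
  · refine hi.mul_bdd (c := F b k 0) (F_uni b k).meas.aestronglyMeasurable (ae_of_all _ fun x => ?_)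
    rw [Real.norm_eq_abs, abs_of_nonneg (F_nn _ _ _)]
    exact F_uni b k _ _ (by simp)
  · rcases le_or_gt |x| a with hx | hx
    · have := F_uni b k x a (by rwa [abs_of_nonneg ha])
      nlinarith [h1 x hx]
    · have := F_uni b k a x (by rw [abs_of_nonneg ha]; exact hx.le)
      nlinarith [h2 x hx]

lemma ch_eq (a : ℝ) : ch a = (Icc (-a) a).indicator 1 := by
  funext x; simp [ch, indicator, abs_le]

lemma ch_int (a : ℝ) : Integrable (ch a) := by
  rw [ch_eq, integrable_indicator_iff measurableSet_Icc]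
  exact continuous_const.integrableOn_Icc

lemma ch_val {a : ℝ} (ha : 0 ≤ a) : ∫ x, ch a x = 2 * a := by
  rw [ch_eq, integral_indicator_one measurableSet_Icc, Real.volume_real_Icc_of_le (by linarith)]
  ring

lemma ch_N {m : ℕ} (b : Fin m → ℝ) (a : ℝ) : Integrable (ch a) (N b) :=
  Integrable.of_bound (ch_uni a).meas.aestronglyMeasurable 1 (ae_of_all _ (ch_bd a))

lemma E0 {m : ℕ} (b : Fin m → ℝ) (φ : ℝ → ℝ) : E b φ 0 = ∫ z, φ z ∂N b := by simp [E]

lemma C0 {m : ℕ} (b : Fin (m+1) → ℝ) (k : Fin (m+1)) (hk : b k ≠ 0) {a : ℝ} (ha : 0 ≤ a) :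
    F b k a * (2 * a) ≤ E b (ch a) 0 := by
  rw [E0, ← ch_val ha]
  exact cmp b k hk ha (ch_uni a).meas (ch_bd a) (ch_int a) (fun x _ => ch_nn _ _)
    (fun x hx => by simp [ch, not_le.2 hx])

lemma C1 {m : ℕ} (b : Fin (m+1) → ℝ) (k : Fin (m+1)) (hk : b k ≠ 0) {a a' : ℝ} (ha : 0 ≤ a)
    (h' : a ≤ a') : E b (ch a') 0 ≤ E b (ch a) 0 + F b k a * (2 * (a' - a)) := by
  have := cmp b k hk ha (h := fun x => ch a x - ch a' x) (C := 2)
    ((ch_uni a).meas.sub (ch_uni a').meas)
    (fun x => by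
      have := abs_le.1 (ch_bd a x); have := abs_le.1 (ch_bd a' x)
      rw [abs_le]; constructor <;> linarith)
    ((ch_int a).sub (ch_int a'))
    (fun x hx => by simp [ch, hx, hx.trans h'])
    (fun x hx => by have := ch_nn a' x; simp [ch, not_le.2 hx] at this ⊢; exact this)
  rw [integral_sub (ch_int a) (ch_int a'), integral_sub (ch_N b a) (ch_N b a'), ch_val ha,
    ch_val (ha.trans h')] at this
  rw [E0, E0]; linarith

lemma Lw {m : ℕ} (b : Fin (m+1) → ℝ) (k : Fin (m+1)) (hk : b k ≠ 0) {a w w' : ℝ} (ha : 0 ≤ a)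
    (hw : a ≤ w) (hw' : w ≤ w') :
    F b k a * (2 * w ^ 2 * a - 4 * w ^ 3 / 3) + (w' ^ 2 - w ^ 2) * (N b).real (Ioi w') ≤
      2 ^ (m+1) * ((∑ j, b j ^ 2) / 3 - w ^ 2) + w ^ 2 * E b (ch a) 0 := by
  have w0 : 0 ≤ w := ha.trans hw
  have i1 : Integrable (fun x => (x ^ 2 - w ^ 2) * ch w x) := by
    have : (fun x => (x ^ 2 - w ^ 2) * ch w x) = (Icc (-w) w).indicator (fun x => x ^ 2 - w ^ 2) := by
      funext x; simp [ch, indicator, abs_le]
    rw [this, integrable_indicator_iff measurableSet_Icc]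
    exact Continuous.integrableOn_Icc (by fun_prop)
  have v1 : ∫ x, (x ^ 2 - w ^ 2) * ch w x = - (4 * w ^ 3 / 3) := by
    have : (fun x => (x ^ 2 - w ^ 2) * ch w x) = (Icc (-w) w).indicator (fun x => x ^ 2 - w ^ 2) := by
      funext x; simp [ch, indicator, abs_le]
    rw [this, integral_indicator measurableSet_Icc, integral_Icc_eq_integral_Ioc,
      ← intervalIntegral.integral_of_le (by linarith), intervalIntegral.integral_sub
      (by apply Continuous.intervalIntegrable; fun_prop) (by apply Continuous.intervalIntegrable; fun_prop),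
      integral_pow]
    simp; ring
  have hm : Measurable fun x => (x ^ 2 - w ^ 2) * ch w x + w ^ 2 * ch a x := by
    have := (ch_uni a).meas; have := (ch_uni w).meas; fun_prop
  have hb : ∀ x, |(x ^ 2 - w ^ 2) * ch w x + w ^ 2 * ch a x| ≤ 2 * w ^ 2 := by
    intro x
    have := sq_abs x
    have := abs_nonneg x
    unfold ch; rw [abs_le]; split_ifs <;> constructor <;> nlinarith
  have := cmp b k hk ha hm hb (i1.add ((ch_int a).const_mul _))
    (fun x hx => by simp [ch, hx, hx.trans hw]; positivity)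
    (fun x hx => by
      have := sq_abs x
      have := abs_nonneg x
      simp only [ch, not_le.2 hx, if_false]; split_ifs <;> nlinarith)
  rw [integral_add i1 ((ch_int a).const_mul _), v1, integral_const_mul, ch_val ha] at this
  have iI : Integrable ((Ioi w').indicator (1 : ℝ → ℝ)) (N b) :=
    (integrable_const (1:ℝ)).indicator measurableSet_Ioi
  have i2 : Integrable (fun x : ℝ => x ^ 2 - w ^ 2) (N b) := int_cont b _ (by fun_prop)
  have up : ∫ x, ((x ^ 2 - w ^ 2) * ch w x + w ^ 2 * ch a x) ∂N b ≤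
      ∫ x, ((x ^ 2 - w ^ 2) + w ^ 2 * ch a x - (w' ^ 2 - w ^ 2) * (Ioi w').indicator 1 x) ∂N b := by
    refine integral_mono (Integrable.of_bound hm.aestronglyMeasurable _ (ae_of_all _ hb))
      ((i2.add ((ch_N b a).const_mul _)).sub (iI.const_mul _)) fun x => ?_
    have := sq_abs x
    have := abs_nonneg x
    have := le_abs_self x
    simp only [ch, indicator, mem_Ioi, Pi.one_apply]
    split_ifs <;> nlinarith
  have i3 : Integrable (fun x : ℝ => x ^ 2 - w ^ 2 + w ^ 2 * ch a x) (N b) :=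
    i2.add ((ch_N b a).const_mul _)
  rw [integral_sub i3 (iI.const_mul _),
    integral_add i2 ((ch_N b a).const_mul _), integral_const_mul, integral_const_mul,
    integral_indicator_one measurableSet_Ioi,
    integral_sub (int_cont b _ (by fun_prop)) (integrable_const _), integral_const, N_univ] at up
  have mom := N_mom b 0
  simp only [zero_add] at mom
  rw [mom] at up
  rw [E0]
  simp only [smul_eq_mul] at up
  nlinarith

lemma pk_le {m : ℕ} (b : Fin (m+1) → ℝ) (k : Fin (m+1)) (a : ℝ) :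
    2 * E (del b k) (ch a) (b k) ≤ E b (ch a) 0 := by
  rw [E_succ b k (ch_uni a).meas (ch_bd a)]
  have u := E_uni (del b k) (ch_uni a) (ch_bd a)
  have : 2 * E (del b k) (ch a) (b k) = ∫ _v, E (del b k) (ch a) (b k) ∂U := by
    simp [U_univ]
  rw [this]
  refine integral_mono_ae (integrable_const _) (Integrable.of_bound
    (u.meas.comp (by fun_prop)).aestronglyMeasurable _ (ae_of_all _ fun v => E_bdd _ (ch_bd a) _)) ?_
  unfold U
  filter_upwards [ae_restrict_mem measurableSet_Ioo] with v hv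
  apply u
  rw [add_zero, abs_mul]
  have : |v| ≤ 1 := abs_le.2 ⟨hv.1.le, hv.2.le⟩
  nlinarith [abs_nonneg (b k)]

lemma tail {m : ℕ} (b : Fin m → ℝ) {w : ℝ} (hw : w < ∑ j, |b j|) (w0 : 0 ≤ w) :
    0 < (N b).real (Ioi w) := by
  set σ := ∑ j, |b j| with hσ
  have s0 : 0 < σ := by linarith
  set r := w / σ with hr
  have r1 : r < 1 := (div_lt_one s0).2 hw
  have r0 : 0 ≤ r := by positivity
  rw [Measure.real, ENNReal.toReal_pos_iff]
  refine ⟨?_, measure_lt_top _ _⟩
  unfold N
  rw [Measure.map_apply (meas_lin b) measurableSet_Ioi]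
  let I : Fin m → Set ℝ := fun j => if 0 ≤ b j then Ioo ((1 + r) / 2) 1 else Ioo (-1) (-((1 + r) / 2))
  refine lt_of_lt_of_le ?_ (measure_mono (s := univ.pi I) ?_)
  · unfold Pm
    rw [Measure.pi_pi, pos_iff_ne_zero, Finset.prod_ne_zero_iff]
    intro j _
    simp only [I, U]
    split_ifs
    · rw [Measure.restrict_apply measurableSet_Ioo, inter_eq_left.2 (Ioo_subset_Ioo (by linarith) le_rfl)]
      simp; linarith
    · rw [Measure.restrict_apply measurableSet_Ioo, inter_eq_left.2 (Ioo_subset_Ioo le_rfl (by linarith))]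
      simp; linarith
  · intro y hy
    have : ∑ j, |b j| * ((1 + r) / 2) ≤ ∑ j, b j * y j := by
      refine Finset.sum_le_sum fun j _ => ?_
      have := hy j (mem_univ _)
      simp only [I] at this
      split_ifs at this with h
      · rw [abs_of_nonneg h]; nlinarith [this.1]
      · rw [abs_of_neg (not_le.1 h)]; nlinarith [this.2]
    rw [← Finset.sum_mul] at this
    have h2 : σ * r = w := by rw [hr]; field_simp
    simp only [mem_preimage, mem_Ioi]
    nlinarith

end Pool.Agent.H.MP_484e46_gt
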