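import Pool.Agent.H.MP_484e46_gt.B

set_option autoImplicit false

open MeasureTheory Set Filter Topology
open scoped Pointwise

namespace Pool.Agent.H.MP_484e46_gt

lemma U_op {r : ℝ} (r0 : 0 ≤ r) (r1 : r ≤ 1) : ∫ v, (1 - op r v) ∂U = 2 - 2 * r := by
  rw [integral_sub (integrable_const _)
    (Integrable.of_bound (op_uni r).meas.aestronglyMeasurable 1 (ae_of_all _ (op_bd r)))]
  have : op r = (Ioo (-r) r).indicator 1 := by funext x; simp [op, indicator, abs_lt]
  rw [this, integral_indicator_one measurableSet_Ioo, integral_const, U_univ, U,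
    measureReal_restrict_apply measurableSet_Ioo,
    inter_eq_left.2 (Ioo_subset_Ioo (by linarith) r1), Real.volume_real_Ioo_of_le (by linarith)]
  simp; ring

lemma strip {m : ℕ} (b : Fin (m+1) → ℝ) (k : Fin (m+1)) (a : ℝ) {r : ℝ} (r0 : 0 ≤ r) (r1 : r ≤ 1) :
    ∫ y, (1 - op r (y k)) * ch a (∑ j, b j * y j) ∂Pm (m+1) ≤
      (2 - 2 * r) * E (del b k) (ch a) (r * b k) := by
  have m1 := (op_uni r).meas
  have m2 := (ch_uni a).meas
  have hψ : Measurable (fun p : ℝ × ℝ => (1 - op r p.1) * ch a p.2) := by fun_prop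
  have bψ : ∀ s t : ℝ, ‖(1 - op r s) * ch a t‖ ≤ 1 := by
    intro s t; unfold op ch; split_ifs <;> simp
  have u := E_uni (del b k) (ch_uni a) (ch_bd a)
  rw [← integral_map (φ := fun y : Fin (m+1) → ℝ => (y k, ∑ j, b j * y j)) (by fun_prop)
    hψ.aestronglyMeasurable, joint, integral_map (by fun_prop) hψ.aestronglyMeasurable,
    integral_prod _ (Integrable.of_bound (Measurable.aestronglyMeasurable (by fun_prop)) 1
      (ae_of_all _ fun p => bψ _ _)), ← U_op r0 r1, ← integral_mul_const]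
  simp_rw [integral_const_mul]
  have e : ∀ v, ∫ y, ch a (b k * v + y) ∂N (del b k) = E (del b k) (ch a) (b k * v) := by
    intro v; unfold E; congr 1; funext y; rw [add_comm]
  simp_rw [e]
  have := u.meas
  refine integral_mono (Integrable.of_bound (Measurable.aestronglyMeasurable (by fun_prop))
    (1 * 2 ^ m) (ae_of_all _ fun v => ?_)) (Integrable.mul_const (Integrable.sub (integrable_const _)
    (Integrable.of_bound m1.aestronglyMeasurable 1 (ae_of_all _ (op_bd r)))) _) fun v => ?_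
  · have := E_bdd (del b k) (ch_bd a) (b k * v)
    unfold op; split_ifs
    · simp
    · simpa using this
  · dsimp only
    unfold op; split_ifs with h
    · simp
    · simp only [sub_zero, one_mul]
      apply u
      rw [abs_mul, abs_mul, abs_of_nonneg r0]
      nlinarith [abs_nonneg (b k), not_lt.1 h]

lemma N_real {m : ℕ} (b : Fin m → ℝ) {T : Set ℝ} (hT : MeasurableSet T) :
    N b T = volume ({y : Fin m → ℝ | ∑ j, b j * y j ∈ T} ∩ univ.pi fun _ => Ioo (-1 : ℝ) 1) := by
  unfold N
  rw [Measure.map_apply (meas_lin b) hT, Pm_eq, Measure.restrict_apply (meas_lin b hT)]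
  rfl

lemma core {m : ℕ} (b : Fin m → ℝ) (a : ℝ) {r : ℝ} (r0 : 0 < r) :
    (Pm m).real {y | (∀ k, |y k| < r) ∧ |∑ j, b j * y j| ≤ a} ≤ r ^ m * E b (ch (a / r)) 0 := by
  rw [E_ch]
  simp only [add_zero]
  have h1 : Pm m {y | (∀ k, |y k| < r) ∧ |∑ j, b j * y j| ≤ a} ≤
      ENNReal.ofReal (r ^ m) * N b {z | |z| ≤ a / r} := by
    rw [N_real b (measurableSet_le (by fun_prop) (by fun_prop))]
    have := Measure.addHaar_smul (volume : Measure (Fin m → ℝ)) r
      ({y : Fin m → ℝ | ∑ j, b j * y j ∈ {z : ℝ | |z| ≤ a / r}} ∩ univ.pi fun _ => Ioo (-1 : ℝ) 1)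
    rw [Module.finrank_fin_fun, abs_of_pos (pow_pos r0 _)] at this
    rw [← this, Pm_eq]
    refine (Measure.restrict_le_self _).trans (measure_mono ?_)
    intro y hy
    rw [mem_smul_set_iff_inv_smul_mem₀ r0.ne']
    refine ⟨?_, fun j _ => ?_⟩
    · simp only [mem_ofPred_eq, Pi.smul_apply, smul_eq_mul]
      have : ∑ j, b j * (r⁻¹ * y j) = (∑ j, b j * y j) / r := by
        rw [Finset.sum_div]; refine Finset.sum_congr rfl fun j _ => by field_simp
      rw [this, abs_div, abs_of_pos r0]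
      exact div_le_div_of_nonneg_right hy.2 r0.le
    · have := abs_lt.1 (hy.1 j)
      simp only [Pi.smul_apply, smul_eq_mul, mem_Ioo]
      rw [inv_mul_lt_iff₀ r0, lt_inv_mul_iff₀ r0]
      constructor <;> linarith
  have := ENNReal.toReal_mono (ENNReal.mul_ne_top ENNReal.ofReal_ne_top (measure_ne_top _ _)) h1
  rwa [ENNReal.toReal_mul, ENNReal.toReal_ofReal (pow_pos r0 _).le] at this

lemma shell_r {m : ℕ} (b : Fin (m+1) → ℝ) (a : ℝ) {r : ℝ} (r0 : 0 < r) (r1 : r ≤ 1) :
    E b (ch a) 0 ≤ r ^ (m+1) * E b (ch (a / r)) 0 +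
      (2 - 2 * r) * ∑ k, E (del b k) (ch a) (r * b k) := by
  have m1 := (op_uni r).meas
  have m2 := (ch_uni a).meas
  set S := {y : Fin (m+1) → ℝ | (∀ k, |y k| < r) ∧ |∑ j, b j * y j| ≤ a}
  have hS : MeasurableSet S := by
    have e : S = (⋂ k, {y : Fin (m+1) → ℝ | |y k| < r}) ∩ {y | |∑ j, b j * y j| ≤ a} := by
      ext y; simp [S]
    rw [e]
    exact (MeasurableSet.iInter fun k => measurableSet_lt (by fun_prop) (by fun_prop)).inter
      (measurableSet_le (by fun_prop) (by fun_prop))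
  have iS : Integrable (S.indicator (1 : (Fin (m+1) → ℝ) → ℝ)) (Pm (m+1)) :=
    (integrable_const (1:ℝ)).indicator hS
  have iψ : ∀ k, Integrable (fun y : Fin (m+1) → ℝ => (1 - op r (y k)) * ch a (∑ j, b j * y j)) (Pm (m+1)) :=
    fun k => Integrable.of_bound (Measurable.aestronglyMeasurable (by fun_prop)) 1
      (ae_of_all _ fun y => by unfold op ch; split_ifs <;> simp)
  have h1 : E b (ch a) 0 ≤ ∫ y, (S.indicator 1 y +
      ∑ k, (1 - op r (y k)) * ch a (∑ j, b j * y j)) ∂Pm (m+1) := by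
    rw [E0, N, integral_map (meas_lin b).aemeasurable m2.aestronglyMeasurable]
    refine integral_mono (Integrable.of_bound (Measurable.aestronglyMeasurable (by fun_prop)) 1
      (ae_of_all _ fun y => ch_bd _ _)) (iS.add
      (integrable_finsetSum _ fun k _ => iψ k)) fun y => ?_
    have nn : ∀ k, 0 ≤ (1 - op r (y k)) * ch a (∑ j, b j * y j) := fun k =>
      mul_nonneg (by linarith [(abs_le.1 (op_bd r (y k))).2]) (ch_nn _ _)
    have s0 := Finset.sum_nonneg (s := Finset.univ) fun k _ => nn k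
    have i0 : (0:ℝ) ≤ S.indicator 1 y := indicator_nonneg (fun _ _ => zero_le_one) _
    dsimp only
    by_cases h : |∑ j, b j * y j| ≤ a
    · by_cases h2 : ∀ k, |y k| < r
      · have : S.indicator (1 : (Fin (m+1) → ℝ) → ℝ) y = 1 := indicator_of_mem (s := S) ⟨h2, h⟩ _
        have := (abs_le.1 (ch_bd a (∑ j, b j * y j))).2
        linarith
      · push Not at h2
        obtain ⟨k, hk⟩ := h2
        have := Finset.single_le_sum (s := Finset.univ) (fun k _ => nn k) (Finset.mem_univ k)
        have h3 : op r (y k) = 0 := by simp [op, hk]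
        rw [h3] at this
        linarith
    · have : ch a (∑ j, b j * y j) = 0 := by simp [ch, h]
      linarith
  rw [integral_add iS (integrable_finsetSum _ fun k _ => iψ k),
    integral_finsetSum _ fun k _ => iψ k] at h1
  have h2 : ∫ y, S.indicator (1 : (Fin (m+1) → ℝ) → ℝ) y ∂Pm (m+1) = (Pm (m+1)).real S := integral_indicator_one hS
  have h3 := core b a r0
  have h4 := Finset.sum_le_sum (s := Finset.univ) fun k _ => strip b k a r0.le r1
  rw [← Finset.mul_sum] at h4
  rw [h2] at h1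
  linarith

lemma rc {m : ℕ} (b : Fin m → ℝ) (a t : ℝ) :
    Tendsto (fun e => E b (ch (a + e)) t) (𝓝[>] 0) (𝓝 (E b (ch a) t)) := by
  simp_rw [E_ch]
  have := tendsto_measure_biInter_gt (μ := N b) (s := fun e : ℝ => {y | |y + t| ≤ a + e}) (a := 0)
    (fun r _ => (measurableSet_le (by fun_prop) (by fun_prop)).nullMeasurableSet)
    (fun i j _ h y hy => by simp only [mem_ofPred_eq] at *; linarith) ⟨1, one_pos, measure_ne_top _ _⟩
  have e : (⋂ r > (0:ℝ), {y | |y + t| ≤ a + r}) = {y | |y + t| ≤ a} := by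
    ext y
    simp only [mem_iInter, mem_ofPred_eq]
    exact ⟨fun h => le_of_forall_pos_le_add h, fun h r hr => by linarith⟩
  rw [e] at this
  exact (ENNReal.tendsto_toReal (measure_ne_top _ _)).comp this

lemma shell {m : ℕ} (b : Fin (m+1) → ℝ) (k0 : Fin (m+1)) (hk : b k0 ≠ 0) {a : ℝ} (ha : 0 < a)
    (hb : ∀ k, |b k| ≤ a) :
    (m + 1) * E b (ch a) 0 - 2 * a * F b k0 a ≤ 2 * ∑ k, E (del b k) (ch a) (b k) := by
  have t1 : Tendsto (fun e : ℝ => (m + 1) * (1 - e / a) ^ (m+1) * E b (ch a) 0 -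
      2 * a * (1 - e / a) ^ m * F b k0 a) (𝓝[>] 0)
      (𝓝 ((m + 1) * (1 - 0 / a) ^ (m+1) * E b (ch a) 0 - 2 * a * (1 - 0 / a) ^ m * F b k0 a)) :=
    (Continuous.tendsto (by fun_prop) _).mono_left nhdsWithin_le_nhds
  have t2 := (tendsto_finsetSum Finset.univ fun k _ => rc (del b k) a (b k)).const_mul 2
  simp only [zero_div, sub_zero, one_pow, mul_one] at t1
  refine le_of_tendsto_of_tendsto t1 t2 ?_
  filter_upwards [Ioo_mem_nhdsGT ha] with e he
  set r := 1 - e / a with hr
  have ea : e / a < 1 := (div_lt_one ha).2 he.2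
  have ea0 : 0 < e / a := div_pos he.1 ha
  have r0 : 0 < r := by linarith
  have r1 : r < 1 := by linarith
  have h1 := shell_r b a r0 r1.le
  have h2 := C1 b k0 hk ha.le (a' := a / r) (by rw [le_div_iff₀ r0]; nlinarith)
  have h3 : ∑ k, E (del b k) (ch a) (r * b k) ≤ ∑ k, E (del b k) (ch (a + e)) (b k) := by
    refine Finset.sum_le_sum fun k _ => ?_
    rw [E_ch, E_ch]
    refine measureReal_mono fun y hy => ?_
    simp only [mem_ofPred_eq] at *
    have : y + b k = (y + r * b k) + e / a * b k := by rw [hr]; ring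
    rw [this]
    refine (abs_add_le _ _).trans (add_le_add hy ?_)
    rw [abs_mul, abs_of_pos ea0]
    calc e / a * |b k| ≤ e / a * a := mul_le_mul_of_nonneg_left (hb k) ea0.le
      _ = e := by field_simp
  have h4 : (m + 1) * r ^ (m+1) * (1 - r) ≤ 1 - r ^ (m+1) := by
    have : ∀ n : ℕ, n * r ^ n * (1 - r) ≤ 1 - r ^ n := by
      intro n
      induction n with
      | zero => simp
      | succ n ih =>
        have p0 : 0 ≤ r ^ n := by positivity
        have q : 0 ≤ (n:ℝ) * r ^ n * (1 - r) := by have := r1.le; have : 0 ≤ 1 - r := by linarith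
                                                   positivity
        have q2 : 0 ≤ r ^ n * (1 - r) := mul_nonneg p0 (by linarith)
        push_cast; rw [pow_succ]; nlinarith
    exact_mod_cast this (m+1)
  have p0 := E_nn b (ch_nn a) 0
  have h5 : r ^ (m+1) * (a / r - a) = a * r ^ m * (1 - r) := by rw [pow_succ]; field_simp
  have h6 := mul_le_mul_of_nonneg_left h2 (pow_pos r0 (m+1)).le
  have h7 := mul_le_mul_of_nonneg_right h4 p0
  have h8 := mul_le_mul_of_nonneg_left h3 (show 0 ≤ 2 - 2 * r by linarith)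
  refine le_of_mul_le_mul_left ?_ (show 0 < 1 - r by linarith)
  have h9 : r ^ (m+1) * (F b k0 a * (2 * (a / r - a))) = 2 * (a * r ^ m * (1 - r)) * F b k0 a := by
    rw [← h5]; ring
  nlinarith

end Pool.Agent.H.MP_484e46_gt
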