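import Pool.Agent.H.MP_484e46_gt.C

set_option autoImplicit false

open MeasureTheory Set Filter Topology

namespace Pool.Agent.H.MP_484e46_gt

lemma one (c : Fin 1 → ℝ) (hc : c 0 ≠ 0) {h t : ℝ} (h1 : h ≤ |t| + |c 0|) (h2 : -h ≤ |t| - |c 0|) :
    (h - |t| + |c 0|) / |c 0| ≤ E c (op h) t := by
  have c0 : 0 < |c 0| := abs_pos.2 hc
  rw [← (E_uni c (op_uni h) (op_bd h)).abs, E_succ c 0 (op_uni h).meas (op_bd h)]
  have : ∀ x, E (del c 0) (op h) x = op h x := by intro x; simp [E, N_zero]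
  simp_rw [this]
  rw [U_win _ hc, div_eq_inv_mul]
  refine mul_le_mul_of_nonneg_left ?_ (by positivity)
  have e : op h = (Ioo (-h) h).indicator 1 := by funext x; simp [op, indicator, abs_lt]
  rw [intervalIntegral.integral_of_le (by linarith), e, integral_indicator_one measurableSet_Ioo,
    measureReal_restrict_apply measurableSet_Ioo]
  refine le_trans ?_ (measureReal_mono (s₁ := Ioo (|t| - |c 0|) h) (fun x hx => ?_)
    (ne_top_of_le_ne_top (measure_Ioo_lt_top (a := -h) (b := h)).ne (measure_mono inter_subset_left)))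
  · rw [Real.volume_real_Ioo]; exact le_max_of_le_left (by linarith)
  · exact ⟨⟨by linarith [hx.1], hx.2⟩, hx.1, by linarith [hx.2]⟩

lemma op_le_ch {m : ℕ} (c : Fin m → ℝ) (h t : ℝ) : E c (op h) t ≤ E c (ch h) t := by
  rw [E_op, E_ch]; exact measureReal_mono fun y hy => le_of_lt (a := |y + t|) (b := h) hy

lemma full {m : ℕ} (c : Fin m → ℝ) {h t : ℝ} (h1 : ∑ j, |c j| + |t| ≤ h) : E c (ch h) t = 2 ^ m := by
  rw [← N_univ c, ← mul_one ((N c).real univ), ← smul_eq_mul, ← integral_const]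
  refine integral_congr_ae ?_
  filter_upwards [N_supp c] with z hz
  have := abs_add_le z t
  simp only [ch]; rw [if_pos (by linarith)]

lemma three {a b c s0 s1 s : ℝ} (hb : 0 < b) (hc : 0 < c) (ba : b ≤ a) (ca : c ≤ a) (h : a < b + c)
    (e0 : s0 ^ 2 = a ^ 2 + c ^ 2) (e1 : s1 ^ 2 = a ^ 2 + b ^ 2) (e : s ^ 2 = b ^ 2 + c ^ 2)
    (p0 : 0 ≤ s0) (p1 : 0 ≤ s1) (p : 0 ≤ s) :
    4 < s0 / a * ((a - b + c) / c) + s1 / a * ((a - c + b) / b) + s * (b⁻¹ * ((b - a + c) / c)) := by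
  have ha : 0 < a := by linarith
  have k : ∀ x y : ℝ, 0 < x → x ≤ a → 0 ≤ y → y ^ 2 = a ^ 2 + x ^ 2 → a ^ 2 + 0.4 * x ^ 2 ≤ y * a := by
    intro x y hx xa hy hxy
    refine abs_le_of_sq_le_sq' ?_ (by positivity) |>.2
    have : x ^ 2 ≤ a ^ 2 := by nlinarith
    have : x ^ 2 * x ^ 2 ≤ x ^ 2 * a ^ 2 := by nlinarith [sq_nonneg x]
    rw [mul_pow, hxy]; nlinarith [mul_pos (pow_pos hx 2) (pow_pos ha 2)]
  have k0 := k c s0 hc ca p0 e0
  have k1 := k b s1 hb ba p1 e1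
  have k2 : 0.7 * (b + c) ≤ s := by
    refine abs_le_of_sq_le_sq' ?_ p |>.2
    rw [e]; nlinarith [sq_nonneg (b - c), mul_pos hb hc]
  have : s0 / a * ((a - b + c) / c) + s1 / a * ((a - c + b) / b) + s * (b⁻¹ * ((b - a + c) / c)) =
      ((s0 * a) * (b * (a - b + c)) + (s1 * a) * (c * (a - c + b)) + s * (a ^ 2 * (b - a + c))) /
        (a ^ 2 * b * c) := by field_simp
  rw [this, lt_div_iff₀ (by positivity)]
  have q0 := mul_le_mul_of_nonneg_right k0 (show 0 ≤ b * (a - b + c) by apply mul_nonneg <;> linarith)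
  have q1 := mul_le_mul_of_nonneg_right k1 (show 0 ≤ c * (a - c + b) by apply mul_nonneg <;> linarith)
  have q2 := mul_le_mul_of_nonneg_right k2
    (show 0 ≤ a ^ 2 * (b - a + c) by apply mul_nonneg (by positivity); linarith)
  have r1 : 0 ≤ (a - b) * (a - c) := by apply mul_nonneg <;> linarith
  have r2 : 0 ≤ a * (b + c) * ((a - b) * (a - c)) := by positivity
  have r3 : 0 < a * (b + c) * (b * c) := by positivity
  have r4 : 0 ≤ b * c * (b - c) ^ 2 := by positivity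
  nlinarith

lemma fin {M T a S μ D y w l q : ℝ} (hy : 0 ≤ y) (hD : 0 ≤ D) (l0 : 0 ≤ l)
    (lS : l ≤ S) (h2 : 2 * w * l ≤ 3 * a * (S - μ)) (hL : q ≤ w ^ 2 * (y + 2 * w / 3 * D))
    (h3 : M * T * a * w ^ 2 < l * q) : M * T * a < S * y + a * (S - μ) * D := by
  have h4 : l * (y + 2 * w / 3 * D) ≤ S * y + a * (S - μ) * D := by
    nlinarith [mul_le_mul_of_nonneg_right lS hy, mul_le_mul_of_nonneg_right h2 hD]
  have h5 := mul_le_mul_of_nonneg_left hL l0
  have h6 := mul_le_mul_of_nonneg_right h4 (sq_nonneg w)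
  exact lt_of_mul_lt_mul_right (a := w ^ 2) (by nlinarith) (sq_nonneg w)

lemma reg2 {M a s : ℝ} (hM : 3 ≤ M) (ha : 0.584 ≤ a) (hs : 0 < s) (e : s ^ 2 = 1 - a ^ 2) {S : ℝ}
    (S1 : M - (1 - a) ≤ S) (S2 : M - s ^ 2 / (1 + s) ≤ S) :
    ∃ w l, a ≤ w ∧ 0 ≤ l ∧ l ≤ S ∧ 2 * w * l ≤ 3 * a * (S - (1 - s)) ∧
      M * a * w ^ 2 < l * (w ^ 2 - s ^ 2 / 3) := by
  have a1 : a < 1 := by nlinarith
  have key : ∀ w G, a ≤ w → 2 * w ≤ 3 * a → 0 < G → G ≤ 3 → M - 3 + G ≤ S →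
      3 * a * (1 - s) ≤ G * (3 * a - 2 * w) → 3 * a * w ^ 2 < G * (w ^ 2 - s ^ 2 / 3) →
      ∃ w l, a ≤ w ∧ 0 ≤ l ∧ l ≤ S ∧ 2 * w * l ≤ 3 * a * (S - (1 - s)) ∧
      M * a * w ^ 2 < l * (w ^ 2 - s ^ 2 / 3) := by
    intro w G h1 h2 G0 G3 h3 h4 h5
    refine ⟨w, M - 3 + G, h1, by linarith, h3, by nlinarith, ?_⟩
    have p : 0 ≤ a * w ^ 2 := by positivity
    have : a * w ^ 2 ≤ w ^ 2 - s ^ 2 / 3 := by
      by_contra hc
      push Not at hc
      nlinarith
    nlinarith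
  rcases le_total a 0.61 with h | h
  · have s1 : s ≤ 0.8118 := by nlinarith
    have s2 : 1.2497 - 0.75 * a ≤ s := by
      refine abs_le_of_sq_le_sq' ?_ hs.le |>.2
      rw [e]; nlinarith
    refine key (a + 0.227) 2.636 (by linarith) (by linarith) (by norm_num) (by norm_num) ?_ ?_ ?_
    · have : s ^ 2 / (1 + s) ≤ 0.364 := by rw [div_le_iff₀ (by linarith)]; nlinarith
      linarith
    · nlinarith
    · rw [e]; nlinarith [mul_nonneg (sub_nonneg.2 ha) (sub_nonneg.2 h)]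
  · refine key ((7 + 5 * a) / 12) (2 + a) (by linarith) (by linarith) (by linarith) (by linarith)
      (by linarith) ?_ ?_
    · have : (1 - a) * (13 * a + 14) ≤ 18 * a * s := by
        refine abs_le_of_sq_le_sq' ?_ (by positivity) |>.2
        rw [mul_pow (18 * a), e]
        have : (1 - a) * (13 * a + 14) ^ 2 ≤ 324 * a ^ 2 * (1 + a) := by nlinarith
        nlinarith [mul_le_mul_of_nonneg_left this (show 0 ≤ 1 - a by linarith)]
      nlinarith
    · rw [e]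
      have : 0 < (1 - a) ^ 3 := pow_pos (by linarith) 3
      nlinarith

lemma sk {m : ℕ} (b : Fin m → ℝ) {a : ℝ} (hs : a ^ 2 + ∑ j, b j ^ 2 = 1) (k : Fin m) :
    a ≤ √(1 - b k ^ 2) := by
  have := Finset.single_le_sum (s := Finset.univ) (f := fun j => b j ^ 2) (fun j _ => sq_nonneg _)
    (Finset.mem_univ k)
  exact Real.le_sqrt_of_sq_le (by linarith)

lemma caseA {m : ℕ} (b : Fin (m+2) → ℝ) (k0 : Fin (m+2)) (hk : b k0 ≠ 0) {a : ℝ} (ha : 0 < a)
    (hs : a ^ 2 + ∑ j, b j ^ 2 = 1) (hA : ∑ j, |b j| ≤ a) :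
    ((m:ℝ) + 2) * 2 ^ (m+1) < ∑ k, √(1 - b k ^ 2) / a * E (del b k) (ch a) (b k) := by
  have e : ∀ k, E (del b k) (ch a) (b k) = 2 ^ (m+1) := fun k => full _ (by
    rw [Fin.sum_univ_succAbove _ k] at hA; unfold del; linarith)
  simp_rw [e]
  rw [← Finset.sum_mul]
  refine mul_lt_mul_of_pos_right ?_ (by positivity)
  have : ((m:ℝ) + 2) = ∑ _k : Fin (m+2), (1:ℝ) := by simp
  rw [this]
  obtain ⟨k, hkk⟩ := exists_ne k0
  refine Finset.sum_lt_sum (fun k _ => (one_le_div ha).2 (sk b hs k)) ⟨k, Finset.mem_univ _, ?_⟩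
  rw [one_lt_div ha]
  have := Finset.sum_le_sum_of_subset_of_nonneg (s := {k, k0}) (t := Finset.univ)
    (f := fun j => b j ^ 2) (Finset.subset_univ _) (fun j _ _ => sq_nonneg _)
  rw [Finset.sum_pair hkk] at this
  have := sq_pos_of_ne_zero hk
  exact Real.lt_sqrt_of_sq_lt (by linarith)

lemma caseB (b : Fin 2 → ℝ) (k0 : Fin 2) {a : ℝ} (ha : 0 < a) (hb : ∀ k, |b k| ≤ a)
    (hs : a ^ 2 + ∑ j, b j ^ 2 = 1) (hA : a < ∑ j, |b j|) :
    4 < ∑ k, √(1 - b k ^ 2) / a * E (del b k) (ch a) (b k) + √(1 - a ^ 2) * F b k0 a := by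
  rw [Fin.sum_univ_two] at hs hA ⊢
  have b0 := hb 0
  have b1 := hb 1
  have n0 : 0 < |b 0| := by linarith
  have n1 : 0 < |b 1| := by linarith
  have d0 : del b 0 0 = b 1 := rfl
  have d1 : del b 1 0 = b 0 := rfl
  have q0 := sq_abs (b 0)
  have q1 := sq_abs (b 1)
  have p0 := (one (del b 0) (abs_pos.1 n1) (h := a) (t := b 0) (by rw [d0]; linarith)
    (by rw [d0]; linarith)).trans (op_le_ch _ _ _)
  have p1 := (one (del b 1) (abs_pos.1 n0) (h := a) (t := b 1) (by rw [d1]; linarith)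
    (by rw [d1]; linarith)).trans (op_le_ch _ _ _)
  rw [d0] at p0
  rw [d1] at p1
  have pF : |b 0|⁻¹ * ((|b 0| - a + |b 1|) / |b 1|) ≤ F b k0 a := by
    fin_cases k0
    · have := one (del b 0) (abs_pos.1 n1) (h := |b 0|) (t := a) (by rw [d0, abs_of_pos ha]; linarith)
        (by rw [d0, abs_of_pos ha]; linarith)
      rw [d0, abs_of_pos ha] at this
      exact mul_le_mul_of_nonneg_left this (by positivity)
    · have := one (del b 1) (abs_pos.1 n0) (h := |b 1|) (t := a) (by rw [d1, abs_of_pos ha]; linarith)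
        (by rw [d1, abs_of_pos ha]; linarith)
      rw [d1, abs_of_pos ha] at this
      have e : |b 0|⁻¹ * ((|b 0| - a + |b 1|) / |b 1|) = |b 1|⁻¹ * ((|b 1| - a + |b 0|) / |b 0|) := by
        field_simp; ring
      exact e.le.trans (mul_le_mul_of_nonneg_left this (inv_nonneg.2 n1.le))
  have := three n0 n1 b0 b1 hA (s0 := √(1 - b 0 ^ 2)) (s1 := √(1 - b 1 ^ 2)) (s := √(1 - a ^ 2))
    (by rw [Real.sq_sqrt (by nlinarith)]; linarith) (by rw [Real.sq_sqrt (by nlinarith)]; linarith)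
    (by rw [Real.sq_sqrt (by nlinarith)]; linarith) (Real.sqrt_nonneg _) (Real.sqrt_nonneg _)
    (Real.sqrt_nonneg _)
  have r0 := mul_le_mul_of_nonneg_left p0 (show 0 ≤ √(1 - b 0 ^ 2) / a by positivity)
  have r1 := mul_le_mul_of_nonneg_left p1 (show 0 ≤ √(1 - b 1 ^ 2) / a by positivity)
  have r2 := mul_le_mul_of_nonneg_left pF (Real.sqrt_nonneg (1 - a ^ 2))
  linarith

lemma caseC {m : ℕ} (hm : 2 ≤ m) (b : Fin (m+1) → ℝ) (k0 : Fin (m+1)) (hk : b k0 ≠ 0) {a : ℝ}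
    (ha : 0 < a) (hb : ∀ k, |b k| ≤ a) (hs : a ^ 2 + ∑ j, b j ^ 2 = 1) :
    ((m:ℝ) + 1) * 2 ^ m < ∑ k, √(1 - b k ^ 2) / a * E (del b k) (ch a) (b k) +
      √(1 - a ^ 2) * F b k0 a := by
  have hM : (3:ℝ) ≤ m + 1 := by have : (2:ℝ) ≤ m := by exact_mod_cast hm
                                linarith
  have hu : 0 < ∑ j, b j ^ 2 := lt_of_lt_of_le (sq_pos_of_ne_zero hk)
    (Finset.single_le_sum (f := fun j => b j ^ 2) (fun j _ => sq_nonneg _) (Finset.mem_univ k0))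
  set s := √(1 - a ^ 2) with hsd
  have e : s ^ 2 = 1 - a ^ 2 := Real.sq_sqrt (by linarith)
  have s0 : 0 < s := Real.sqrt_pos.2 (by linarith)
  have bk : ∀ k, b k ^ 2 ≤ a ^ 2 := fun k => by
    rw [← sq_abs]; exact pow_le_pow_left₀ (abs_nonneg _) (hb k) 2
  have ssk : ∀ k, s ≤ √(1 - b k ^ 2) := fun k => Real.sqrt_le_sqrt (by linarith [bk k])
  have sk1 : ∀ k, √(1 - b k ^ 2) ≤ 1 := fun k => Real.sqrt_le_one.2 (by nlinarith [sq_nonneg (b k)])
  have esk : ∀ k, √(1 - b k ^ 2) ^ 2 = 1 - b k ^ 2 := fun k => Real.sq_sqrt (by nlinarith [bk k])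
  set S := ∑ k, √(1 - b k ^ 2) with hS
  have chord : ∀ c : ℝ, 0 < c → (∀ k, c ≤ √(1 - b k ^ 2)) → (m + 1 : ℝ) - s ^ 2 / (1 + c) ≤ S := by
    intro c c0 hc
    have : (m + 1 : ℝ) - s ^ 2 / (1 + c) = ∑ k, (1 - b k ^ 2 / (1 + c)) := by
      rw [Finset.sum_sub_distrib, ← Finset.sum_div, e]; simp; congr 1; linarith
    rw [this]
    refine Finset.sum_le_sum fun k _ => ?_
    rw [sub_le_comm, le_div_iff₀ (by linarith)]
    nlinarith [hc k, sk1 k, esk k]
  have S2 := chord s s0 ssk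
  have S1 : (m + 1 : ℝ) - (1 - a) ≤ S := by
    have := chord a ha (sk b hs)
    rwa [e, show (1 - a ^ 2) / (1 + a) = 1 - a by field_simp; ring] at this
  set p := E b (ch a) 0 with hp
  set D := 2 * F b k0 a with hD
  have D0 : 0 ≤ D := by have := F_nn b k0 a; linarith
  have y0 : 0 ≤ p - a * D := by have := C0 b k0 hk ha.le; linarith
  have red : ∀ μ : ℝ, (∀ k, √(1 - b k ^ 2) - s ≤ μ) →
      (m + 1) * 2 ^ (m+1) * a < S * (p - a * D) + a * (S - μ) * D →
      ((m:ℝ) + 1) * 2 ^ m < ∑ k, √(1 - b k ^ 2) / a * E (del b k) (ch a) (b k) + s * F b k0 a := by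
    intro μ hμ h
    have h1 := shell b k0 hk ha hb
    have h2 : ∑ k, √(1 - b k ^ 2) * (p - 2 * E (del b k) (ch a) (b k)) ≤
        ∑ k, (μ + s) * (p - 2 * E (del b k) (ch a) (b k)) :=
      Finset.sum_le_sum fun k _ => mul_le_mul_of_nonneg_right (by linarith [hμ k])
        (by linarith [pk_le b k a])
    rw [← Finset.mul_sum, Finset.sum_sub_distrib, ← Finset.mul_sum] at h2
    simp only [mul_sub, Finset.sum_sub_distrib, ← Finset.sum_mul, Finset.sum_const, Finset.card_univ,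
      Fintype.card_fin, nsmul_eq_mul, Nat.cast_add, Nat.cast_one] at h2
    have h3 : 2 * a * ∑ k, √(1 - b k ^ 2) / a * E (del b k) (ch a) (b k) =
        ∑ k, √(1 - b k ^ 2) * (2 * E (del b k) (ch a) (b k)) := by
      rw [Finset.mul_sum]; refine Finset.sum_congr rfl fun k _ => by field_simp
    have m0 : 0 ≤ μ + s := by linarith [hμ k0, ssk k0]
    have h4 := mul_le_mul_of_nonneg_left h1 m0
    refine lt_of_mul_lt_mul_left (a := 2 * a) ?_ (by linarith)
    rw [mul_add, h3, pow_succ] at *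
    nlinarith
  have su : ∑ j, b j ^ 2 = s ^ 2 := by linarith
  rcases le_total a 0.584 with h | h
  · have s1 : 0.81 ≤ s := Real.le_sqrt_of_sq_le (by nlinarith)
    have as : a < s := by linarith
    have big : s < ∑ j, |b j| := by
      have : ∑ j, b j ^ 2 ≤ ∑ j, a * |b j| := Finset.sum_le_sum fun j _ => by
        rw [← sq_abs]; nlinarith [hb j, abs_nonneg (b j)]
      rw [← Finset.mul_sum, su] at this
      by_contra hc
      push Not at hc
      nlinarith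
    have tl := tail b (w := (s + ∑ j, |b j|) / 2) (by linarith) (by linarith)
    have L := Lw b k0 hk ha.le as.le (w' := (s + ∑ j, |b j|) / 2) (by linarith)
    have pos : 0 < (((s + ∑ j, |b j|) / 2) ^ 2 - s ^ 2) * (N b).real (Ioi ((s + ∑ j, |b j|) / 2)) :=
      mul_pos (by nlinarith) tl
    rw [su] at L
    refine red (S - (m + 1) * s) (fun k => ?_) (fin (w := s) (l := 3 * (m + 1) * a / 2)
      (q := 2 ^ (m+1) * (2 * s ^ 2 / 3) + (((s + ∑ j, |b j|) / 2) ^ 2 - s ^ 2) *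
        (N b).real (Ioi ((s + ∑ j, |b j|) / 2))) y0 D0 (by positivity) ?_ (le_of_eq (by ring))
      (by rw [hD]; linear_combination L) ?_)
    · have := Finset.single_le_sum (s := Finset.univ) (f := fun k => √(1 - b k ^ 2) - s)
        (fun j _ => sub_nonneg.2 (ssk j)) (Finset.mem_univ k)
      rw [Finset.sum_sub_distrib] at this
      simpa using this
    · have : s ^ 2 / (1 + s) ≤ 3 * (2 - 3 * a) / 2 := by
        rw [div_le_iff₀ (by linarith), e]; nlinarith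
      nlinarith
    · have : 0 < 3 * ((m:ℝ) + 1) * a / 2 := by positivity
      nlinarith [mul_pos this pos]
  · obtain ⟨w, l, h1, h2, h3, h4, h5⟩ := reg2 hM h s0 e S1 S2
    have L := Lw b k0 hk ha.le h1 le_rfl
    rw [su] at L
    refine red (1 - s) (fun k => by linarith [sk1 k]) (fin (w := w) (l := l)
      (q := 2 ^ (m+1) * (w ^ 2 - s ^ 2 / 3)) y0 D0 h2 h3 h4 (by rw [hD]; linear_combination L) ?_)
    have : (0:ℝ) < 2 ^ (m+1) := by positivity
    nlinarith [mul_lt_mul_of_pos_left h5 this]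

lemma main {m : ℕ} (hm : 1 ≤ m) (b : Fin (m+1) → ℝ) (k0 : Fin (m+1)) (hk : b k0 ≠ 0) {a : ℝ}
    (ha : 0 < a) (hb : ∀ k, |b k| ≤ a) (hs : a ^ 2 + ∑ j, b j ^ 2 = 1) :
    ((m:ℝ) + 1) * 2 ^ m < ∑ k, √(1 - b k ^ 2) / a * E (del b k) (ch a) (b k) +
      √(1 - a ^ 2) * F b k0 a := by
  rcases hm.eq_or_lt with rfl | h
  · rcases le_or_gt (∑ j, |b j|) a with hA | hA
    · exact lt_of_lt_of_le (lt_of_eq_of_lt (by norm_num) (caseA (m := 0) b k0 hk ha hs hA))
        (le_add_of_nonneg_right (mul_nonneg (Real.sqrt_nonneg (1 - a ^ 2)) (F_nn b k0 a)))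
    · exact lt_of_eq_of_lt (by norm_num) (caseB b k0 ha hb hs hA)
  · exact caseC h b k0 hk ha hb hs

end Pool.Agent.H.MP_484e46_gt
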