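import Pool.Agent.H.MP_484e46_gt.D

set_option autoImplicit false

open MeasureTheory Set Filter Topology

namespace Pool.Agent.H.MP_484e46_gt

abbrev V (n : ℕ) := EuclideanSpace ℝ (Fin n)

def Bd {n : ℕ} (u : V n) : Set (V n) :=
  {x | ∑ j, u j * x j = 0 ∧ (∀ j, |x j| ≤ 1) ∧ ∃ k, |x k| = 1}

lemma front {n : ℕ} (u : V n) (d : ℕ) :
    μHE[d] (frontier {x : (ℝ ∙ u)ᗮ | ∀ i, |x.1 i| ≤ 1}) = μHE[d] (Bd u) := by
  rw [← isometry_subtype_coe.euclideanHausdorffMeasure_image]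
  congr 1
  have mem : ∀ x : V n, x ∈ (ℝ ∙ u)ᗮ ↔ ∑ j, u j * x j = 0 := by
    intro x
    rw [Submodule.mem_orthogonal_singleton_iff_inner_right, PiLp.inner_apply]
    simp [mul_comm]
  have cl : IsClosed {x : (ℝ ∙ u)ᗮ | ∀ i, |x.1 i| ≤ 1} := by
    rw [ofPred_forall]
    exact isClosed_iInter fun i => isClosed_le (by fun_prop) (by fun_prop)
  rw [cl.frontier_eq]
  ext x
  constructor
  · rintro ⟨y, ⟨h1, h2⟩, rfl⟩
    refine ⟨(mem _).1 y.2, h1, ?_⟩
    by_contra hc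
    push Not at hc
    apply h2
    have op : IsOpen {x : (ℝ ∙ u)ᗮ | ∀ i, |x.1 i| < 1} := by
      rw [ofPred_forall]
      exact isOpen_iInter_of_finite fun i => isOpen_lt (by fun_prop) (by fun_prop)
    exact interior_maximal (fun z hz i => (hz i).le) op fun i => lt_of_le_of_ne (h1 i) (hc i)
  · rintro ⟨h1, h2, k, hk⟩
    refine ⟨⟨x, (mem _).2 h1⟩, ⟨h2, fun hi => ?_⟩, rfl⟩
    set y : (ℝ ∙ u)ᗮ := ⟨x, (mem _).2 h1⟩
    have t : Tendsto (fun r : ℝ => r • y) (𝓝[>] 1) (𝓝 ((1:ℝ) • y)) :=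
      (Continuous.tendsto (by fun_prop) _).mono_left nhdsWithin_le_nhds
    rw [one_smul] at t
    obtain ⟨r, h3, h4⟩ := ((t.eventually (mem_interior_iff_mem_nhds.1 hi)).and
      self_mem_nhdsWithin).exists
    have h5 := h3 k
    have h6 : 1 < r := h4
    simp only [y, Submodule.coe_smul, PiLp.smul_apply, smul_eq_mul, abs_mul, hk, mul_one] at h5
    linarith [le_abs_self r]

structure Dec {m : ℕ} (i k : Fin (m+2)) (e : Fin m → Fin (m+2)) : Prop where
  sum : ∀ f : Fin (m+2) → ℝ, ∑ l, f l = f i + f k + ∑ j, f (e j)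
  inj : Function.Injective e
  ei : ∀ j, e j ≠ i
  ek : ∀ j, e j ≠ k
  ik : i ≠ k
  cov : ∀ l, l = i ∨ l = k ∨ ∃ j, l = e j

lemma Dec.symm {m : ℕ} {i k : Fin (m+2)} {e : Fin m → Fin (m+2)} (h : Dec i k e) : Dec k i e :=
  ⟨fun f => by rw [h.sum]; ring, h.inj, h.ek, h.ei, h.ik.symm, fun l => by have := h.cov l; tauto⟩

lemma dec {m : ℕ} (i : Fin (m+2)) (k : Fin (m+1)) :
    Dec i (i.succAbove k) (fun j => i.succAbove (k.succAbove j)) := by
  refine ⟨fun f => ?_, Fin.succAbove_right_injective.comp Fin.succAbove_right_injective,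
    fun j => Fin.succAbove_ne _ _, fun j h => Fin.succAbove_ne _ _ (Fin.succAbove_right_injective h),
    (Fin.succAbove_ne _ _).symm, fun l => ?_⟩
  · rw [Fin.sum_univ_succAbove _ i, Fin.sum_univ_succAbove _ k, add_assoc]
  · rcases Fin.eq_self_or_eq_succAbove i l with h | ⟨l', rfl⟩
    · exact Or.inl h
    · rcases Fin.eq_self_or_eq_succAbove k l' with h | ⟨j, rfl⟩
      · exact Or.inr (Or.inl (by rw [h]))
      · exact Or.inr (Or.inr ⟨j, rfl⟩)

noncomputable def vv {m : ℕ} (u : V (m+2)) (i : Fin (m+2)) (e : Fin m → Fin (m+2)) (j : Fin m) :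
    V (m+2) := EuclideanSpace.single (e j) 1 - EuclideanSpace.single i (u (e j) / u i)

noncomputable def LL {m : ℕ} (u : V (m+2)) (i : Fin (m+2)) (e : Fin m → Fin (m+2)) :
    V m →ₗ[ℝ] V (m+2) := (EuclideanSpace.basisFun (Fin m) ℝ).toBasis.constr ℝ (vv u i e)

noncomputable def Ph {m : ℕ} (u : V (m+2)) (i k : Fin (m+2)) (e : Fin m → Fin (m+2)) (ε : ℝ)
    (y : V m) : V (m+2) :=
  (EuclideanSpace.single k ε - EuclideanSpace.single i (u k * ε / u i)) + LL u i e y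

section
variable {m : ℕ} {u : V (m+2)} {i k : Fin (m+2)} {e : Fin m → Fin (m+2)}

lemma LL_apply (y : V m) : LL u i e y = ∑ j, y j • vv u i e j := by
  unfold LL
  rw [Module.Basis.constr_apply_fintype]
  simp

lemma Ph_k (h : Dec i k e) (ε : ℝ) (y : V m) : Ph u i k e ε y k = ε := by
  simp [Ph, LL_apply, vv, h.ik.symm, (h.ek _).symm]

lemma Ph_e (h : Dec i k e) (ε : ℝ) (y : V m) (j : Fin m) : Ph u i k e ε y (e j) = y j := by
  simp [Ph, LL_apply, vv, h.ei, h.ek, Pi.single_apply, h.inj.eq_iff]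

lemma Ph_i (h : Dec i k e) (ε : ℝ) (y : V m) :
    Ph u i k e ε y i = -((∑ j, u (e j) * y j + u k * ε) / u i) := by
  simp [Ph, LL_apply, vv, h.ik, (h.ei _).symm, add_div, Finset.sum_div]
  exact Finset.sum_congr rfl fun j _ => by ring

lemma Ph_perp (h : Dec i k e) (hi : u i ≠ 0) (ε : ℝ) (y : V m) :
    ∑ l, u l * Ph u i k e ε y l = 0 := by
  rw [h.sum]; simp only [Ph_i h, Ph_k h, Ph_e h]; field_simp; ring

lemma Ph_surj (h : Dec i k e) (hi : u i ≠ 0) (x : V (m+2)) (hx : ∑ l, u l * x l = 0) :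
    Ph u i k e (x k) (WithLp.toLp 2 fun j => x (e j)) = x := by
  ext l
  rcases h.cov l with rfl | rfl | ⟨j, rfl⟩
  · rw [Ph_i h]; rw [h.sum] at hx; field_simp; linarith
  · exact Ph_k h _ _
  · exact Ph_e h _ _ _

lemma LL_det (h : Dec i k e) (hi : u i ≠ 0) (hu : ∑ l, u l ^ 2 = 1) :
    (LL u i e).normDet = √(1 - u k ^ 2) / |u i| := by
  have h1 := (LL u i e).normDet_sq_eq_det_gram (EuclideanSpace.basisFun (Fin m) ℝ)
  have h2 : Matrix.gram ℝ (fun j => LL u i e (EuclideanSpace.basisFun (Fin m) ℝ j)) =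
      1 + Matrix.replicateCol Unit (fun j => u (e j) / u i) *
        Matrix.replicateRow Unit (fun j => u (e j) / u i) := by
    ext j j'
    have : ∀ j, LL u i e (EuclideanSpace.basisFun (Fin m) ℝ j) = vv u i e j := fun j =>
      (EuclideanSpace.basisFun (Fin m) ℝ).toBasis.constr_basis ℝ _ j
    simp only [Matrix.gram_apply, this, vv, inner_sub_left, inner_sub_right,
      EuclideanSpace.inner_single_left, Matrix.add_apply, Matrix.mul_apply, Matrix.one_apply]
    simp [h.ei, (h.ei _).symm, h.inj.eq_iff]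
  rw [h2, Matrix.det_one_add_replicateCol_mul_replicateRow] at h1
  rw [h.sum] at hu
  have h3 : (LL u i e).normDet ^ 2 = (1 - u k ^ 2) / u i ^ 2 := by
    have : (1:ℝ) + ((fun j => u (e j) / u i) ⬝ᵥ fun j => u (e j) / u i) = (1 - u k ^ 2) / u i ^ 2 := by
      unfold dotProduct
      have : ∑ j, u (e j) / u i * (u (e j) / u i) = (∑ j, u (e j) ^ 2) / u i ^ 2 := by
        rw [Finset.sum_div]; refine Finset.sum_congr rfl fun j _ => by ring
      rw [this]; field_simp; linarith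
    rw [← this]; simpa using h1
  rw [← Real.sqrt_sq (LL u i e).normDet_nonneg, h3, Real.sqrt_div' _ (sq_nonneg _),
    Real.sqrt_sq_eq_abs]

lemma facet (h : Dec i k e) (hi : u i ≠ 0) (hu : ∑ l, u l ^ 2 = 1) (ε : ℝ) {S : Set (Fin m → ℝ)}
    (hS : MeasurableSet S) :
    μHE[m] (Ph u i k e ε '' (WithLp.ofLp ⁻¹' S)) =
      ENNReal.ofReal (√(1 - u k ^ 2) / |u i|) * volume S := by
  have h1 := (LL u i e).euclideanHausdorffMeasure_image_eq_normDet_mul_volume (WithLp.ofLp ⁻¹' S)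
  rw [finrank_euclideanSpace_fin, LL_det h hi hu,
    (PiLp.volume_preserving_ofLp (Fin m)).measure_preimage hS.nullMeasurableSet] at h1
  rw [← h1, ← (IsometryEquiv.addLeft (EuclideanSpace.single k ε -
    EuclideanSpace.single i (u k * ε / u i))).isometry.euclideanHausdorffMeasure_image
    (LL u i e '' (WithLp.ofLp ⁻¹' S)), image_image]
  rfl

end

def sg (ε : Bool) : ℝ := if ε then 1 else -1

lemma sg_abs (ε : Bool) : |sg ε| = 1 := by cases ε <;> simp [sg]

def Fs {n : ℕ} (u : V n) (i : Fin n) (p : Fin n × Bool) : Set (V n) :=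
  {x | ∑ j, u j * x j = 0 ∧ x p.1 = sg p.2 ∧ (∀ j, j ≠ p.1 → j ≠ i → |x j| < 1) ∧ |x i| ≤ 1}

lemma Fs_sum {n : ℕ} (u : V n) (i : Fin n) (d : ℕ) :
    ∑ p, μHE[d] (Fs u i p) ≤ μHE[d] (Bd u) := by
  rw [← measure_biUnion_finset]
  · refine measure_mono ?_
    simp only [iUnion_subset_iff]
    rintro p - x ⟨h1, h2, h3, h4⟩
    refine ⟨h1, fun j => ?_, p.1, by rw [h2, sg_abs]⟩
    by_cases hj : j = p.1
    · rw [hj, h2, sg_abs]
    · by_cases hi : j = i
      · rwa [hi]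
      · exact (h3 j hj hi).le
  · rintro ⟨l, ε⟩ - ⟨l', ε'⟩ - hne
    rw [Function.onFun, disjoint_left]
    rintro x ⟨-, h2, h3, -⟩ ⟨-, h2', h3', -⟩
    dsimp only at *
    by_cases hl : l = l'
    · subst hl
      rw [h2] at h2'
      cases ε <;> cases ε' <;> simp [sg] at h2' hne <;> linarith
    · by_cases hi : l = i
      · have := h3 l' (Ne.symm hl) (by rw [← hi]; exact Ne.symm hl)
        rw [h2', sg_abs] at this; linarith
      · have := h3' l hl hi
        rw [h2, sg_abs] at this; linarith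
  · intro p _
    have : Fs u i p = {x | ∑ j, u j * x j = 0} ∩ ({x | x p.1 = sg p.2} ∩
        ((⋂ j, ⋂ (_ : j ≠ p.1), ⋂ (_ : j ≠ i), {x : V n | |x j| < 1}) ∩ {x | |x i| ≤ 1})) := by
      ext x; simp [Fs]
    rw [this]
    exact (measurableSet_eq_fun (by fun_prop) (by fun_prop)).inter
      ((measurableSet_eq_fun (by fun_prop) (by fun_prop)).inter ((MeasurableSet.iInter fun j =>
        MeasurableSet.iInter fun _ => MeasurableSet.iInter fun _ =>
          measurableSet_lt (by fun_prop) (by fun_prop)).inter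
          (measurableSet_le (by fun_prop) (by fun_prop))))

lemma uni_sg {φ : ℝ → ℝ} (h : Uni φ) (x : ℝ) (ε : Bool) : φ (x * sg ε) = φ x := by
  rw [← h.abs, abs_mul, sg_abs, mul_one, h.abs]

section
variable {m : ℕ} {u : V (m+2)} {i : Fin (m+2)}

lemma side (hi : u i ≠ 0) (hu : ∑ l, u l ^ 2 = 1) (k : Fin (m+1)) (ε : Bool) :
    ENNReal.ofReal (√(1 - u (i.succAbove k) ^ 2) / |u i| *
      E (del (fun k => u (i.succAbove k)) k) (ch |u i|) (u (i.succAbove k))) ≤
      μHE[m] (Fs u i (i.succAbove k, ε)) := by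
  have h := dec i k
  rw [← uni_sg (E_uni _ (ch_uni _) (ch_bd _)) _ ε, E_ch, ENNReal.ofReal_mul (by positivity),
    ofReal_measureReal, N_real _ (measurableSet_le (by fun_prop) (by fun_prop)),
    ← facet h hi hu (sg ε)]
  swap
  · exact (meas_lin _ (measurableSet_le (by fun_prop) (by fun_prop))).inter
      (MeasurableSet.univ_pi fun _ => measurableSet_Ioo)
  refine measure_mono ?_
  rintro _ ⟨y, ⟨h1, h2⟩, rfl⟩
  refine ⟨Ph_perp h hi _ _, Ph_k h _ _, fun j j1 j2 => ?_, ?_⟩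
  · rcases h.cov j with rfl | rfl | ⟨j, rfl⟩
    · exact absurd rfl j2
    · exact absurd rfl j1
    · rw [Ph_e h]; exact abs_lt.2 (h2 j (mem_univ _))
  · rw [Ph_i h, abs_neg, abs_div, div_le_one (abs_pos.2 hi)]
    exact h1

lemma top (k : Fin (m+1)) (hk : u (i.succAbove k) ≠ 0) (hu : ∑ l, u l ^ 2 = 1) (ε : Bool) :
    ENNReal.ofReal (√(1 - |u i| ^ 2) * F (fun k => u (i.succAbove k)) k |u i|) ≤
      μHE[m] (Fs u i (i, ε)) := by
  have h := (dec i k).symm
  rw [F, (E_uni _ (op_uni _) (op_bd _)).abs, ← mul_assoc, ← div_eq_mul_inv, sq_abs,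
    ← uni_sg (E_uni _ (op_uni _) (op_bd _)) _ ε, E_op, ENNReal.ofReal_mul (by positivity),
    ofReal_measureReal, N_real _ (measurableSet_lt (by fun_prop) (by fun_prop)),
    ← facet h hk hu (sg ε)]
  swap
  · exact (meas_lin _ (measurableSet_lt (by fun_prop) (by fun_prop))).inter
      (MeasurableSet.univ_pi fun _ => measurableSet_Ioo)
  refine measure_mono ?_
  rintro _ ⟨y, ⟨h1, h2⟩, rfl⟩
  refine ⟨Ph_perp h hk _ _, Ph_k h _ _, fun j j1 j2 => ?_, ?_⟩
  · rcases h.cov j with rfl | rfl | ⟨j, rfl⟩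
    · rw [Ph_i h, abs_neg, abs_div, div_lt_one (abs_pos.2 hk)]
      exact h1
    · exact absurd rfl j1
    · rw [Ph_e h]; exact abs_lt.2 (h2 j (mem_univ _))
  · rw [Ph_k h, sg_abs]

lemma low (hi : u i ≠ 0) (hu : ∑ l, u l ^ 2 = 1) {x0 : ℝ} (h0 : 0 ≤ x0)
    (hx : ∀ ε, ENNReal.ofReal x0 ≤ μHE[m] (Fs u i (i, ε))) :
    ENNReal.ofReal (2 * (∑ k, √(1 - u (i.succAbove k) ^ 2) / |u i| *
      E (del (fun k => u (i.succAbove k)) k) (ch |u i|) (u (i.succAbove k)) + x0)) ≤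
      μHE[m] (Bd u) := by
  refine le_trans ?_ (Fs_sum u i m)
  have nn : ∀ k, 0 ≤ √(1 - u (i.succAbove k) ^ 2) / |u i| *
      E (del (fun k => u (i.succAbove k)) k) (ch |u i|) (u (i.succAbove k)) :=
    fun k => mul_nonneg (by positivity) (E_nn _ (ch_nn _) _)
  have s0 := Finset.sum_nonneg (s := Finset.univ) fun k _ => nn k
  rw [Fintype.sum_prod_type_right, Fintype.sum_bool, two_mul,
    ENNReal.ofReal_add (by linarith) (by linarith), ENNReal.ofReal_add s0 h0,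
    ENNReal.ofReal_sum_of_nonneg fun k _ => nn k]
  refine add_le_add ?_ ?_ <;>
  · rw [Fin.sum_univ_succAbove _ i, add_comm]
    exact add_le_add (hx _) (Finset.sum_le_sum fun k _ => side hi hu k _)

lemma upp (hi : u i ≠ 0) (hu : ∑ l, u l ^ 2 = 1)
    (h1 : ∀ k, √(1 - u (i.succAbove k) ^ 2) / |u i| = 1)
    (h2 : ∀ x ∈ Bd u, ∃ k, |x (i.succAbove k)| = 1) :
    μHE[m] (Bd u) ≤ ENNReal.ofReal (2 * ((m + 1) * 2 ^ m)) := by
  have : Bd u ⊆ ⋃ p : Fin (m+1) × Bool, Ph u i (i.succAbove p.1)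
      (fun j => i.succAbove (p.1.succAbove j)) (sg p.2) ''
      (WithLp.ofLp ⁻¹' Icc (fun _ => (-1:ℝ)) (fun _ => 1)) := by
    intro x hx
    obtain ⟨k, hk⟩ := h2 x hx
    have : ∃ ε, x (i.succAbove k) = sg ε := by
      rcases (abs_eq zero_le_one).1 hk with h | h
      · exact ⟨true, h⟩
      · exact ⟨false, h⟩
    obtain ⟨ε, hε⟩ := this
    refine mem_iUnion.2 ⟨(k, ε), _, ?_, hε ▸ Ph_surj (dec i k) hi x hx.1⟩
    exact ⟨fun j => (abs_le.1 (hx.2.1 _)).1, fun j => (abs_le.1 (hx.2.1 _)).2⟩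
  refine (measure_mono this).trans ((measure_iUnion_fintype_le _ _).trans (le_of_eq ?_))
  simp only [fun p : Fin (m+1) × Bool => facet (dec i p.1) hi hu (sg p.2)
    (measurableSet_Icc (a := fun _ : Fin m => (-1:ℝ)) (b := fun _ => 1)), h1, Real.volume_Icc_pi]
  rw [ENNReal.ofReal_mul (by norm_num), ENNReal.ofReal_mul (by positivity),
    ENNReal.ofReal_pow (by norm_num), show ((m:ℝ) + 1) = ((m + 1 : ℕ) : ℝ) by simp,
    ENNReal.ofReal_natCast]
  norm_num
  ring

lemma eqc (hi : u i ≠ 0) (hu : ∑ l, u l ^ 2 = 1)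
    (h1 : ∀ k, √(1 - u (i.succAbove k) ^ 2) / |u i| = 1)
    (h2 : ∀ x ∈ Bd u, ∃ k, |x (i.succAbove k)| = 1) (h3 : ∑ k, |u (i.succAbove k)| ≤ |u i|) :
    μHE[m] (Bd u) = ENNReal.ofReal (2 * ((m + 1) * 2 ^ m)) := by
  refine le_antisymm (upp hi hu h1 h2) (le_trans (le_of_eq ?_) (low hi hu le_rfl (by simp)))
  have e : ∀ k, E (del (fun k => u (i.succAbove k)) k) (ch |u i|) (u (i.succAbove k)) = 2 ^ m :=
    fun k => full _ (by rw [Fin.sum_univ_succAbove _ k] at h3; unfold del; linarith)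
  simp [e, h1]

end

theorem fin_thm (m : ℕ) (u : V (m+2)) (hu : ∑ l, u l ^ 2 = 1) :
    ENNReal.ofReal (2 * ((m + 1) * 2 ^ m)) ≤ μHE[m] (Bd u) ∧
    (μHE[m] (Bd u) = ENNReal.ofReal (2 * ((m + 1) * 2 ^ m)) ↔ m = 0 ∨ ∃ i, |u i| = 1) := by
  obtain ⟨i, -, hi⟩ := Finset.exists_max_image Finset.univ (fun l => |u l|) Finset.univ_nonempty
  have hi0 : u i ≠ 0 := by
    intro h
    have : ∀ l, u l = 0 := fun l => by simpa [h] using hi l (Finset.mem_univ _)
    simp [this] at hu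
  have a0 := abs_pos.2 hi0
  have hs := hu
  rw [Fin.sum_univ_succAbove _ i, ← sq_abs (u i)] at hs
  by_cases hm : m = 0
  · subst hm
    have := eqc hi0 hu (fun k => by
      rw [Fin.sum_univ_one] at hs
      rw [Fin.fin_one_eq_zero k, div_eq_one_iff_eq a0.ne', ← Real.sqrt_sq a0.le]
      congr 1; linarith) (fun x hx => by
      obtain ⟨h1, h2, l, hl⟩ := hx
      refine ⟨0, ?_⟩
      rcases Fin.eq_self_or_eq_succAbove i l with rfl | ⟨k, rfl⟩
      · rw [Fin.sum_univ_succAbove _ l, Fin.sum_univ_one] at h1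
        have h3 := congrArg abs (eq_neg_of_add_eq_zero_left h1)
        rw [abs_neg, abs_mul, abs_mul, hl] at h3
        have h4 := hi (l.succAbove 0) (Finset.mem_univ _)
        have h5 := h2 (l.succAbove 0)
        have h6 := abs_nonneg (x (l.succAbove 0))
        nlinarith
      · rwa [Fin.fin_one_eq_zero k] at hl) (by
      rw [Fin.sum_univ_one]; exact hi _ (Finset.mem_univ _))
    exact ⟨this.ge, by simpa using this⟩
  by_cases hz : ∀ k, u (i.succAbove k) = 0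
  · have a1 : |u i| = 1 := by
      simp only [hz] at hs
      exact (pow_eq_one_iff_of_nonneg a0.le two_ne_zero).1 (by simpa using hs)
    have := eqc hi0 hu (fun k => by simp [hz, a1]) (fun x hx => by
      obtain ⟨h1, h2, l, hl⟩ := hx
      rcases Fin.eq_self_or_eq_succAbove i l with rfl | ⟨k, rfl⟩
      · rw [Fin.sum_univ_succAbove _ l] at h1
        simp [hz, hi0] at h1
        simp [h1] at hl
      · exact ⟨k, hl⟩) (by simp [hz])
    exact ⟨this.ge, fun _ => Or.inr ⟨i, a1⟩, fun _ => this⟩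
  · push Not at hz
    obtain ⟨k, hk⟩ := hz
    have h1 := main (Nat.one_le_iff_ne_zero.2 hm) (fun k => u (i.succAbove k)) k hk a0
      (fun k => hi _ (Finset.mem_univ _)) hs
    have h2 := low hi0 hu (mul_nonneg (Real.sqrt_nonneg _) (F_nn _ _ _)) (top k hk hu)
    have h3 : ENNReal.ofReal (2 * ((m + 1) * 2 ^ m)) < μHE[m] (Bd u) :=
      lt_of_lt_of_le ((ENNReal.ofReal_lt_ofReal_iff_of_nonneg (by positivity)).2 (by linarith)) h2
    refine ⟨h3.le, fun h => absurd h h3.ne', ?_⟩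
    rintro (h | ⟨l, hl⟩)
    · exact absurd h hm
    · exfalso
      have h4 := hi l (Finset.mem_univ _)
      have h5 := Finset.single_le_sum (s := Finset.univ) (f := fun j => u (i.succAbove j) ^ 2)
        (fun j _ => sq_nonneg _) (Finset.mem_univ k)
      have := sq_pos_of_ne_zero hk
      simp only [hl] at h4
      nlinarith

end Pool.Agent.H.MP_484e46_gt
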